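import Pool.Agent.K1H88.GT.Stm

/-!
Project GT: comparison of the integral with the sums over windows (adaptation of
`K1H59.RM.Sand` to a complex sequence).
-/

set_option autoImplicit false

open Finset MeasureTheory
open Pool.Agent.K1H88.GT

namespace Pool.Agent.K1H10.GT

theorem MM_eq' (a : ℕ → ℂ) (H : ℝ) (hH : 1 ≤ H) (k j : ℕ) (y : ℝ)
    (h1 : (k : ℝ) < y) (h2 : y < k + 1) (h3 : (k : ℝ) + j < y + H) (h4 : y + H < k + j + 1) :
    MM a (y + H / 2) H = DD a k j := by
  unfold MM DD
  apply Finset.sum_congr _ (fun _ _ => rfl)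
  ext n
  simp only [Finset.mem_filter, Finset.mem_range, Finset.mem_Ioc]
  constructor
  · rintro ⟨-, h⟩
    rw [abs_lt] at h
    constructor
    · have : (k : ℝ) < n := by linarith
      exact_mod_cast this
    · have : (n : ℝ) < ((k + j + 1 : ℕ) : ℝ) := by
        push_cast
        linarith
      have := Nat.cast_lt.mp this
      omega
  · rintro ⟨ha, hb⟩
    have ha' : (k : ℝ) + 1 ≤ n := by exact_mod_cast ha
    have hb' : (n : ℝ) ≤ k + j := by exact_mod_cast hb
    constructor
    · have hc : y + H / 2 + H ≤ (⌈y + H / 2 + H⌉₊ : ℝ) := Nat.le_ceil _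
      have : (n : ℝ) < ((⌈y + H / 2 + H⌉₊ + 1 : ℕ) : ℝ) := by
        push_cast
        linarith
      exact_mod_cast this
    · rw [abs_lt]
      constructor
      · linarith
      · linarith

theorem piece (f : ℝ → ℝ) (a b c : ℝ) (hab : a ≤ b) (h : ∀ x, a < x → x < b → f x = c) :
    IntervalIntegrable f volume a b ∧ ∫ x in a..b, f x = (b - a) * c := by
  have hae : ∀ᵐ x ∂(volume : Measure ℝ), x ∈ Set.uIoc a b → c = f x := by
    filter_upwards [compl_mem_ae_iff.mpr (measure_singleton b)] with x hx hmem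
    rw [Set.uIoc_of_le hab] at hmem
    exact (h x hmem.1 (lt_of_le_of_ne hmem.2 hx)).symm
  constructor
  · have hc : IntervalIntegrable (fun _ : ℝ => c) volume a b := intervalIntegrable_const
    exact hc.congr_ae ((ae_restrict_iff' measurableSet_uIoc).mpr hae)
  · rw [← intervalIntegral.integral_congr_ae hae, intervalIntegral.integral_const, smul_eq_mul]

/-- the integral over one unit interval -/
theorem t_INT (a : ℕ → ℂ) (H : ℝ) (k : ℕ) (hH : 1 ≤ H) :
    IntervalIntegrable (fun x => ‖MM a x H‖ ^ 2) volume (k + H / 2) (k + 1 + H / 2) ∧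
    ∫ x in (k + H / 2 : ℝ)..(k + 1 + H / 2), ‖MM a x H‖ ^ 2 =
      (1 - Int.fract H) * ‖DD a k ⌊H⌋₊‖ ^ 2 + Int.fract H * ‖DD a k (⌊H⌋₊ + 1)‖ ^ 2 := by
  set j := ⌊H⌋₊ with hj
  set th := Int.fract H with hth
  have hH0 : 0 ≤ H := by linarith
  have hHj : H = j + th := by
    rw [hj, hth, natCast_floor_eq_intCast_floor hH0]
    exact (Int.floor_add_fract H).symm
  have ht0 : 0 ≤ th := Int.fract_nonneg H
  have ht1 : th < 1 := Int.fract_lt_one H
  obtain ⟨i1, e1⟩ := piece (fun x => ‖MM a x H‖ ^ 2) (k + H / 2) (k + 1 - th + H / 2)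
    (‖DD a k j‖ ^ 2) (by linarith) (by
      intro x hx1 hx2
      have := MM_eq' a H hH k j (x - H / 2) (by linarith) (by linarith) (by linarith) (by linarith)
      rw [sub_add_cancel] at this
      simp only [this])
  obtain ⟨i2, e2⟩ := piece (fun x => ‖MM a x H‖ ^ 2) (k + 1 - th + H / 2) (k + 1 + H / 2)
    (‖DD a k (j + 1)‖ ^ 2) (by linarith) (by
      intro x hx1 hx2
      have := MM_eq' a H hH k (j + 1) (x - H / 2) (by linarith) (by linarith)
        (by push_cast; linarith) (by push_cast; linarith)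
      rw [sub_add_cancel] at this
      simp only [this])
  refine ⟨i1.trans i2, ?_⟩
  rw [← intervalIntegral.integral_add_adjacent_intervals i1 i2, e1, e2]
  ring

/-- the summation range can be enlarged -/
theorem MM_eq (a : ℕ → ℂ) (x H b : ℝ) (hx : x ≤ b) :
    MM a x H = ∑ n ∈ range (⌈b + H⌉₊ + 1), if |(n : ℝ) - x| < H / 2 then a n else 0 := by
  rw [MM, ← Finset.sum_filter]
  refine Finset.sum_congr ?_ fun _ _ => rfl
  ext n
  simp only [Finset.mem_filter, Finset.mem_range]
  constructor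
  · rintro ⟨h1, h2⟩
    refine ⟨lt_of_lt_of_le h1 ?_, h2⟩
    have : ⌈x + H⌉₊ ≤ ⌈b + H⌉₊ := Nat.ceil_mono (by linarith)
    omega
  · rintro ⟨h1, h2⟩
    refine ⟨?_, h2⟩
    have h3 := abs_lt.1 h2
    have h4 : (n : ℝ) < ⌈x + H⌉₊ := by
      refine lt_of_lt_of_le ?_ (Nat.le_ceil (x + H))
      linarith [h3.1, h3.2]
    have h5 : n < ⌈x + H⌉₊ := by exact_mod_cast h4
    omega

theorem integrable_all (a : ℕ → ℂ) (H c b : ℝ) (hab : c ≤ b) :
    IntervalIntegrable (fun x => ‖MM a x H‖ ^ 2) volume c b := by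
  have hmeas : Measurable fun x : ℝ => ∑ n ∈ range (⌈b + H⌉₊ + 1),
      if |(n : ℝ) - x| < H / 2 then a n else 0 := by
    refine Finset.measurable_sum _ fun n _ => ?_
    refine Measurable.ite ?_ measurable_const measurable_const
    exact measurableSet_lt (by fun_prop) measurable_const
  have h1 : IntervalIntegrable (fun x : ℝ => ‖∑ n ∈ range (⌈b + H⌉₊ + 1),
      (if |(n : ℝ) - x| < H / 2 then a n else 0)‖ ^ 2) volume c b := by
    rw [intervalIntegrable_iff]
    refine Measure.integrableOn_of_bounded (M := (∑ n ∈ range (⌈b + H⌉₊ + 1), ‖a n‖) ^ 2)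
      (by simp [Set.uIoc]) ?_ ?_
    · exact (hmeas.norm.pow_const 2).aestronglyMeasurable
    · refine Filter.Eventually.of_forall fun x => ?_
      rw [Real.norm_of_nonneg (by positivity)]
      refine pow_le_pow_left₀ (norm_nonneg _)
        ((norm_sum_le _ _).trans (Finset.sum_le_sum fun n _ => ?_)) 2
      split_ifs
      · exact le_rfl
      · rw [norm_zero]; positivity
  refine h1.congr ?_
  intro x hx
  rw [Set.uIoc_of_le hab] at hx
  simp only
  rw [MM_eq a x H b hx.2]

theorem sum_windows (a : ℕ → ℂ) (H : ℝ) (U1 U2 : ℕ) (hH : 1 ≤ H) (hU : U1 ≤ U2) :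
    ∫ x in (U1 + H / 2 : ℝ)..(U2 + H / 2), ‖MM a x H‖ ^ 2 =
      (1 - Int.fract H) * II a U1 U2 ⌊H⌋₊ + Int.fract H * II a U1 U2 (⌊H⌋₊ + 1) := by
  have h1 := intervalIntegral.sum_integral_adjacent_intervals_Ico (f := fun x => ‖MM a x H‖ ^ 2)
    (μ := volume) (a := fun k : ℕ => (k : ℝ) + H / 2) hU (fun k _ => by
      refine integrable_all a H _ _ ?_
      push_cast
      linarith)
  rw [← h1, II, II, Finset.mul_sum, Finset.mul_sum, ← Finset.sum_add_distrib]
  refine Finset.sum_congr rfl fun k _ => ?_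
  have h2 := (t_INT a H k hH).2
  push_cast
  exact h2

/-- Piece SAND. -/
theorem t_SAND : S_SAND := by
  intro a X H U1 U2 hH hX hU
  have hU' : (U1 : ℝ) ≤ U2 := by exact_mod_cast hU
  rw [← sum_windows a H U1 U2 hH hU]
  refine ⟨fun h1 h2 => ?_, fun h1 h2 => ?_⟩
  · refine intervalIntegral.integral_mono_interval h1 (by linarith) h2 ?_
      (integrable_all a H _ _ (by linarith))
    exact Filter.Eventually.of_forall fun x => by positivity
  · refine intervalIntegral.integral_mono_interval h1 (by linarith) h2 ?_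
      (integrable_all a H _ _ (by linarith))
    exact Filter.Eventually.of_forall fun x => by positivity

end Pool.Agent.K1H10.GT
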